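import Pool.Agent.helper56.EXQ.Spec
import Pool.Agent.helper70.EXQ.STA

/-!
# Project exq: (MP_70a088_an): row STAI: change of variables on the strip (integrable functions)
-/

set_option autoImplicit false

open Complex Metric Set Filter Topology MeasureTheory Pool.Agent.helper98.ILF

noncomputable section

namespace EXQ

theorem STAI : STAI_stmt := by
  intro c G hG
  have hd : ∀ w ∈ St, HasFDerivWithinAt (F c)
      ((ContinuousLinearMap.toSpanSingleton ℂ (Complex.exp w)).restrictScalars ℝ : ℂ →L[ℝ] ℂ) St w := by
    intro w _
    have h1 : HasDerivAt (F c) (Complex.exp w) w := (Complex.hasDerivAt_exp w).add_const c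
    exact (h1.hasFDerivAt.restrictScalars ℝ).hasFDerivWithinAt
  have hcongr : ∀ w ∈ St,
      |((ContinuousLinearMap.toSpanSingleton ℂ (Complex.exp w)).restrictScalars ℝ : ℂ →L[ℝ] ℂ).det| •
        G (F c w) = ((‖Complex.exp w‖ ^ 2 : ℝ) : ℂ) * G (F c w) := by
    intro w _
    rw [det_smul, abs_of_nonneg (by positivity), Complex.real_smul]
  have himg : F c '' St =ᵐ[volume] (univ : Set ℂ) := by
    rw [STA_image]
    exact eventuallyEq_univ.mpr (compl_mem_ae_iff.mpr (measure_singleton c))
  constructor
  · have h1 := integrableOn_image_iff_integrableOn_abs_det_fderiv_smul volume STA_meas hd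
      (STA_inj c) G
    have h2 : IntegrableOn G (F c '' St) := hG.integrableOn
    refine (h1.mp h2).congr_fun hcongr STA_meas
  · have h1 := integral_image_eq_integral_abs_det_fderiv_smul volume STA_meas hd (STA_inj c) G
    rw [setIntegral_congr_set himg, setIntegral_univ] at h1
    rw [h1]
    exact setIntegral_congr_fun STA_meas hcongr

end EXQ
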